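import Pool.Agent.Q266.PT.Main
import Pool.Agent.Q266.PT.LP

/-!
# Half-integral rational triangle decompositions of planar multigraphs

Every planar multigraph with a rational `K₃`-decomposition has a rational `K₃`-decomposition with
all weights in `{0, 1/2, 1}`.

Idea of the proof. The total weights of the triangles of the underlying simple graph `H` are a
nonnegative solution of a linear system whose right hand sides are the multiplicities of the edges.
Take a solution with linearly independent support. It is half-integral: for a function `u` supported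
on linearly independent triangles, if the sums of `u` over the edges are congruent modulo 2 to those
of an integral function, then `u` is integral. This is proved by induction. Take a clique `K` with
at most three vertices and a set `C` with as few elements as possible which is separated by `K` from
the rest of the graph. As `H` has no minor `K₅` or `K₃,₃`, every edge is in at most two triangles
of `K ∪ C`. So the values of `u` modulo 2 and up to sign are constant on the neighbouring triangles
which meet `C`; if they are not integral, one obtains a function with values `0, 1, -1` supported on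
these triangles whose sums over the edges are `0` or those of `± K`, a contradiction to the
independence or to the induction hypothesis. Finally, half-integral weights of the triangles of `H`
can be distributed to the copies of the edges.
-/

set_option autoImplicit false

namespace Pool.Agent.Results.MP_d6a58d_co.HalfIntegral

open Finset Pool.Agent.Q266.PT

/-- A multigraph without loops, with vertices `V` and edges `E`; `ends e` is the set of the two
vertices joined by `e`. -/
structure Multigraph (V E : Type*) where
  ends : E → Finset V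
  card_ends : ∀ e, (ends e).card = 2

variable {V E : Type*} [DecidableEq V] [DecidableEq E]

namespace Multigraph

variable (G : Multigraph V E)

/-- the underlying simple graph -/
def graph : SimpleGraph V where
  Adj a b := a ≠ b ∧ ∃ e, G.ends e = {a, b}
  symm := ⟨fun a b h => ⟨h.1.symm, by obtain ⟨-, e, he⟩ := h; exact ⟨e, by rw [he, Finset.pair_comm]⟩⟩⟩
  loopless := ⟨fun _ h => h.1 rfl⟩

/-- planar: the underlying simple graph has no minor `K₅` and no minor `K₃,₃` (for finite graphs
this is Wagner's theorem); the branch sets of a minor are disjoint and connected, see `HasMinor`. -/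
def Planar : Prop :=
  ¬ HasMinor G.graph (⊤ : SimpleGraph (Fin 5)) ∧
    ¬ HasMinor G.graph (completeBipartiteGraph (Fin 3) (Fin 3))

/-- the triangles: sets of three edges which join the pairs of three distinct vertices -/
def IsTriangle (t : Finset E) : Prop :=
  ∃ (u v w : V) (a b c : E), u ≠ v ∧ v ≠ w ∧ w ≠ u ∧ G.ends a = {u, v} ∧ G.ends b = {v, w} ∧
    G.ends c = {w, u} ∧ t = {a, b, c}

open scoped Classical in
/-- a rational `K₃`-decomposition: nonnegative weights of the triangles such that for every edge
the sum of the weights of the triangles containing it is `1` -/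
def IsDecomposition [Fintype E] (w : Finset E → ℚ) : Prop :=
  (∀ t, G.IsTriangle t → 0 ≤ w t) ∧
    ∀ e, ∑ t ∈ univ.filter (fun t : Finset E => G.IsTriangle t ∧ e ∈ t), w t = 1

/-- the triangle `t` lies over the triple `T` -/
def Over (t : Finset E) (T : Finset V) : Prop :=
  T.card = 3 ∧ Set.InjOn G.ends t ∧ t.image G.ends = T.powersetCard 2

variable {G}

theorem mem_triple {u v w : V} {P : Finset V} (hP : P.card = 2) (h : P ⊆ {u, v, w}) :
    P = {u, v} ∨ P = {v, w} ∨ P = {w, u} := by
  obtain ⟨a, b, hab, rfl⟩ := Finset.card_eq_two.1 hP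
  have ha : a ∈ ({u, v, w} : Finset V) := h (by simp)
  have hb : b ∈ ({u, v, w} : Finset V) := h (by simp)
  simp only [Finset.mem_insert, Finset.mem_singleton] at ha hb
  rcases ha with rfl | rfl | rfl <;> rcases hb with rfl | rfl | rfl <;>
    first
    | exact absurd rfl hab
    | simp [Finset.pair_comm]

theorem powersetCard_triple {u v w : V} (huv : u ≠ v) (hvw : v ≠ w) (hwu : w ≠ u) :
    ({u, v, w} : Finset V).powersetCard 2 = {{u, v}, {v, w}, {w, u}} := by
  ext P
  simp only [Finset.mem_powersetCard, Finset.mem_insert, Finset.mem_singleton]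
  constructor
  · rintro ⟨h1, h2⟩
    exact mem_triple h2 h1
  · rintro (rfl | rfl | rfl)
    · exact ⟨by intro x; simp; tauto, Finset.card_pair huv⟩
    · exact ⟨by intro x; simp; tauto, Finset.card_pair hvw⟩
    · exact ⟨by intro x; simp; tauto, Finset.card_pair hwu⟩

theorem isTriangle_iff (t : Finset E) : G.IsTriangle t ↔ ∃ T, G.Over t T := by
  constructor
  · rintro ⟨u, v, w, a, b, c, huv, hvw, hwu, ha, hb, hc, rfl⟩
    have n1 : ({u, v} : Finset V) ≠ {v, w} := by
      intro e
      have : u ∈ ({v, w} : Finset V) := by rw [← e]; simp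
      simp [huv, hwu.symm] at this
    have n2 : ({v, w} : Finset V) ≠ {w, u} := by
      intro e
      have : v ∈ ({w, u} : Finset V) := by rw [← e]; simp
      simp [huv.symm, hvw] at this
    have n3 : ({u, v} : Finset V) ≠ {w, u} := by
      intro e
      have : v ∈ ({w, u} : Finset V) := by rw [← e]; simp
      simp [huv.symm, hvw] at this
    refine ⟨{u, v, w}, ?_, ?_, ?_⟩
    · exact Finset.card_eq_three.2 ⟨u, v, w, huv, hwu.symm, hvw, rfl⟩
    · intro x hx y hy hxy
      simp only [Finset.coe_insert, Finset.coe_singleton, Set.mem_insert_iff,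
        Set.mem_singleton_iff] at hx hy
      rcases hx with rfl | rfl | rfl <;> rcases hy with rfl | rfl | rfl <;>
        first
        | rfl
        | (exfalso
           simp only [ha, hb, hc] at hxy
           first
           | exact n1 hxy
           | exact n2 hxy
           | exact n3 hxy
           | exact n1 hxy.symm
           | exact n2 hxy.symm
           | exact n3 hxy.symm)
    · rw [powersetCard_triple huv hvw hwu]
      simp [ha, hb, hc]
  · rintro ⟨T, hT3, hinj, himg⟩
    obtain ⟨u, v, w, huv, huw, hvw, rfl⟩ := Finset.card_eq_three.1 hT3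
    rw [powersetCard_triple huv hvw huw.symm] at himg
    obtain ⟨a, ha, hae⟩ := Finset.mem_image.1
      (show ({u, v} : Finset V) ∈ t.image G.ends by rw [himg]; simp)
    obtain ⟨b, hb, hbe⟩ := Finset.mem_image.1
      (show ({v, w} : Finset V) ∈ t.image G.ends by rw [himg]; simp)
    obtain ⟨c, hc, hce⟩ := Finset.mem_image.1
      (show ({w, u} : Finset V) ∈ t.image G.ends by rw [himg]; simp)
    refine ⟨u, v, w, a, b, c, huv, hvw, huw.symm, hae, hbe, hce, ?_⟩
    ext x
    simp only [Finset.mem_insert, Finset.mem_singleton]
    constructor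
    · intro hx
      have h1 : G.ends x ∈ t.image G.ends := Finset.mem_image_of_mem _ hx
      rw [himg] at h1
      simp only [Finset.mem_insert, Finset.mem_singleton] at h1
      rcases h1 with h1 | h1 | h1
      · exact Or.inl (hinj hx ha (h1.trans hae.symm))
      · exact Or.inr (Or.inl (hinj hx hb (h1.trans hbe.symm)))
      · exact Or.inr (Or.inr (hinj hx hc (h1.trans hce.symm)))
    · rintro (rfl | rfl | rfl)
      exacts [ha, hb, hc]

theorem over_unique {t : Finset E} {T T' : Finset V} (h : G.Over t T) (h' : G.Over t T') :
    T = T' := by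
  have key : ∀ {T T' : Finset V}, G.Over t T → G.Over t T' → T ⊆ T' := by
    intro T T' h h' x hx
    have h1 : 1 < T.card := by rw [h.1]; norm_num
    obtain ⟨y, hy, hyx⟩ := Finset.exists_mem_ne h1 x
    have h2 : ({x, y} : Finset V) ∈ T.powersetCard 2 := by
      rw [Finset.mem_powersetCard]
      refine ⟨?_, Finset.card_pair hyx.symm⟩
      intro z hz
      simp only [Finset.mem_insert, Finset.mem_singleton] at hz
      rcases hz with rfl | rfl
      exacts [hx, hy]
    rw [← h.2.2, h'.2.2, Finset.mem_powersetCard] at h2
    exact h2.1 (by simp)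
  exact Finset.Subset.antisymm (key h h') (key h' h)

/-- a triangle over `T` has one edge over each pair in `T` -/
theorem card_edges {t : Finset E} {T : Finset V} (h : G.Over t T) {P : Finset V}
    (hP : P.card = 2) : (t.filter (fun e => G.ends e = P)).card = if P ⊆ T then 1 else 0 := by
  split_ifs with hPT
  · have h1 : P ∈ t.image G.ends := by
      rw [h.2.2, Finset.mem_powersetCard]
      exact ⟨hPT, hP⟩
    obtain ⟨e, he, heP⟩ := Finset.mem_image.1 h1
    rw [Finset.card_eq_one]
    refine ⟨e, ?_⟩
    ext x
    simp only [Finset.mem_filter, Finset.mem_singleton]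
    constructor
    · rintro ⟨hx, hxP⟩
      exact h.2.1 hx he (hxP.trans heP.symm)
    · rintro rfl
      exact ⟨he, heP⟩
  · rw [Finset.card_eq_zero, Finset.filter_eq_empty_iff]
    intro e he heP
    apply hPT
    have h1 : G.ends e ∈ t.image G.ends := Finset.mem_image_of_mem _ he
    rw [h.2.2, Finset.mem_powersetCard, heP] at h1
    exact h1.1

variable [Fintype V] [Fintype E]

open scoped Classical in
/-- the total weight of the triangles over `T` -/
noncomputable def agg (G : Multigraph V E) (w : Finset E → ℚ) (T : Finset V) : ℚ :=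
  ∑ t ∈ univ.filter (fun t : Finset E => G.Over t T), w t

open scoped Classical in
theorem inc_agg {w : Finset E → ℚ} (hw : G.IsDecomposition w) {P : Finset V} (hP : P.card = 2) :
    inc (G.agg w) P = ((univ.filter (fun e => G.ends e = P)).card : ℚ) := by
  have h1 : inc (G.agg w) P = ∑ t : Finset E, if G.IsTriangle t then
      ((t.filter (fun e => G.ends e = P)).card : ℚ) * w t else 0 := by
    have h2 : inc (G.agg w) P = ∑ T : Finset V, ∑ t : Finset E,
        if P ⊆ T ∧ G.Over t T then w t else 0 := by
      unfold inc agg
      refine Finset.sum_congr rfl fun T _ => ?_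
      by_cases hPT : P ⊆ T
      · simp [hPT, Finset.sum_filter]
      · simp [hPT]
    rw [h2, Finset.sum_comm]
    refine Finset.sum_congr rfl fun t _ => ?_
    split_ifs with ht
    · obtain ⟨T, hT⟩ := (isTriangle_iff t).1 ht
      rw [Finset.sum_eq_single T, card_edges hT hP]
      · by_cases hPT : P ⊆ T <;> simp [hPT, hT]
      · intro T' _ hTT
        rw [if_neg]
        rintro ⟨-, h'⟩
        exact hTT (over_unique h' hT)
      · intro h'
        exact absurd (Finset.mem_univ _) h'
    · apply Finset.sum_eq_zero
      intro T _
      rw [if_neg]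
      rintro ⟨-, h'⟩
      exact ht ((isTriangle_iff t).2 ⟨T, h'⟩)
  rw [h1]
  have h3 : ((univ.filter (fun e => G.ends e = P)).card : ℚ) =
      ∑ e ∈ univ.filter (fun e => G.ends e = P), ∑ t : Finset E,
        if G.IsTriangle t ∧ e ∈ t then w t else 0 := by
    rw [Finset.card_eq_sum_ones, Nat.cast_sum]
    refine Finset.sum_congr rfl fun e _ => ?_
    rw [← Finset.sum_filter, hw.2 e]
    norm_num
  rw [h3, Finset.sum_comm]
  refine Finset.sum_congr rfl fun t _ => ?_
  by_cases ht : G.IsTriangle t
  · rw [if_pos ht]
    simp only [ht, true_and]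
    rw [← Finset.sum_filter, Finset.sum_const, nsmul_eq_mul]
    congr 2
    congr 1
    ext e
    simp [and_comm]
  · simp [ht]

/-- the half-units of the weights `n T / 2` -/
abbrev Units (n : Finset V → ℕ) : Type _ := Σ T : Finset V, Fin (n T)

/-- half-integral weights of triples can be distributed to the triangles -/
theorem distribute (n : Finset V → ℕ) (hn : ∀ T, n T ≠ 0 → T.card = 3)
    (h : ∀ P : Finset V, P.card = 2 →
      ∑ T ∈ univ.filter (fun T => P ⊆ T), n T = 2 * (univ.filter (fun e => G.ends e = P)).card) :
    ∃ w : Finset E → ℚ, G.IsDecomposition w ∧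
      ∀ t, G.IsTriangle t → w t = 0 ∨ w t = 1 / 2 ∨ w t = 1 := by
  classical
  have hequiv : ∀ P : Finset V, P.card = 2 →
      Nonempty ({τ : Units n // P ⊆ τ.1} ≃ {e : E // G.ends e = P} × Fin 2) := by
    intro P hP
    rw [← Fintype.card_eq, Fintype.card_prod, Fintype.card_fin]
    have h1 : Fintype.card {τ : Units n // P ⊆ τ.1} =
        ∑ T ∈ univ.filter (fun T => P ⊆ T), n T := by
      rw [Fintype.card_subtype]
      have : (univ.filter (fun τ : Units n => P ⊆ τ.1)) =
          (univ.filter (fun T => P ⊆ T)).sigma (fun T => (univ : Finset (Fin (n T)))) := by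
        ext ⟨T, i⟩
        simp
      rw [this, Finset.card_sigma]
      simp
    rw [h1, h P hP, Fintype.card_subtype, mul_comm]
  -- the copy of the pair `P` used by the half-unit `τ`
  obtain ⟨f, hf1, hf2, hf3⟩ : ∃ f : Units n → Finset V → Option E,
      (∀ τ P e, f τ P = some e → G.ends e = P ∧ P ⊆ τ.1) ∧
      (∀ τ P, P.card = 2 → P ⊆ τ.1 → ∃ e, f τ P = some e) ∧
      ∀ e : E, (univ.filter (fun τ => f τ (G.ends e) = some e)).card = 2 := by
    refine ⟨fun τ P => if hP : P.card = 2 ∧ P ⊆ τ.1 then
      some ((hequiv P hP.1).some ⟨τ, hP.2⟩).1.1 else none, ?_, ?_, ?_⟩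
    · intro τ P e he
      simp only at he
      split_ifs at he with hP
      rw [Option.some_inj] at he
      exact ⟨by rw [← he]; exact ((hequiv P hP.1).some ⟨τ, hP.2⟩).1.2, hP.2⟩
    · intro τ P h1 h2
      simp only
      rw [dif_pos ⟨h1, h2⟩]
      exact ⟨_, rfl⟩
    · intro e
      have hc := G.card_ends e
      have : univ.filter (fun τ : Units n => (if hP : (G.ends e).card = 2 ∧ G.ends e ⊆ τ.1 then
          some ((hequiv (G.ends e) hP.1).some ⟨τ, hP.2⟩).1.1 else none) = some e) =
          univ.image (fun j : Fin 2 => ((hequiv (G.ends e) hc).some.symm (⟨e, rfl⟩, j)).1) := by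
        ext τ
        simp only [Finset.mem_filter, Finset.mem_univ, true_and, Finset.mem_image]
        constructor
        · intro he
          split_ifs at he with hP
          rw [Option.some_inj] at he
          refine ⟨((hequiv (G.ends e) hc).some ⟨τ, hP.2⟩).2, ?_⟩
          have : ((⟨e, rfl⟩ : {e' : E // G.ends e' = G.ends e}),
              ((hequiv (G.ends e) hc).some ⟨τ, hP.2⟩).2) =
              (hequiv (G.ends e) hc).some ⟨τ, hP.2⟩ := by
            ext
            · exact he.symm
            · rfl
          rw [this, Equiv.symm_apply_apply]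
        · rintro ⟨j, rfl⟩
          rw [dif_pos ⟨hc, ((hequiv (G.ends e) hc).some.symm (⟨e, rfl⟩, j)).2⟩]
          simp
      rw [this, Finset.card_image_of_injective]
      · simp
      · intro i j hij
        have := (hequiv (G.ends e) hc).some.symm.injective (Subtype.ext hij)
        exact (Prod.mk.injEq _ _ _ _ ▸ this).2
  -- the triangle of a half-unit
  set tr : Units n → Finset E := fun τ => univ.filter (fun e => f τ (G.ends e) = some e) with htr
  have hmem : ∀ τ e, e ∈ tr τ ↔ f τ (G.ends e) = some e := by
    intro τ e
    simp [htr]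
  have hover : ∀ τ, G.Over (tr τ) τ.1 := by
    intro τ
    have h3 : τ.1.card = 3 := by
      apply hn
      intro h0
      have := τ.2.2
      omega
    refine ⟨h3, ?_, ?_⟩
    · intro e he e' he' hee
      have h1 := (hmem τ e).1 he
      have h2 := (hmem τ e').1 he'
      rw [hee, h2, Option.some_inj] at h1
      exact h1.symm
    · ext P
      rw [Finset.mem_image, Finset.mem_powersetCard]
      constructor
      · rintro ⟨e, he, rfl⟩
        exact ⟨(hf1 τ _ e ((hmem τ e).1 he)).2, G.card_ends e⟩
      · rintro ⟨h1, h2⟩
        obtain ⟨e, he⟩ := hf2 τ P h2 h1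
        have h4 := (hf1 τ P e he).1
        exact ⟨e, (hmem τ e).2 (by rw [h4]; exact he), h4⟩
  have htri : ∀ τ, G.IsTriangle (tr τ) := fun τ => (isTriangle_iff _).2 ⟨τ.1, hover τ⟩
  set w : Finset E → ℚ := fun t => ((univ.filter (fun τ => tr τ = t)).card : ℚ) / 2 with hw
  have hw0 : ∀ t, 0 ≤ w t := fun t => by simp only [hw]; positivity
  have hsum : ∀ e, ∑ t ∈ univ.filter (fun t : Finset E => G.IsTriangle t ∧ e ∈ t), w t = 1 := by
    intro e
    simp only [hw]
    rw [← Finset.sum_div]
    have h1 : ∑ t ∈ univ.filter (fun t : Finset E => G.IsTriangle t ∧ e ∈ t),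
        (univ.filter (fun τ => tr τ = t)).card = (univ.filter (fun τ => e ∈ tr τ)).card := by
      rw [← Finset.card_biUnion]
      · congr 1
        ext τ
        simp only [Finset.mem_biUnion, Finset.mem_filter, Finset.mem_univ, true_and]
        constructor
        · rintro ⟨t, ⟨-, h1⟩, rfl⟩
          exact h1
        · intro h1
          exact ⟨tr τ, ⟨htri τ, h1⟩, rfl⟩
      · intro t _ t' _ htt
        rw [Function.onFun, Finset.disjoint_left]
        intro τ h1 h2
        exact htt ((Finset.mem_filter.1 h1).2.symm.trans (Finset.mem_filter.1 h2).2)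
    have h2 : univ.filter (fun τ => e ∈ tr τ) =
        univ.filter (fun τ => f τ (G.ends e) = some e) := by
      ext τ
      simp [hmem]
    rw [← Nat.cast_sum, h1, h2, hf3]
    norm_num
  refine ⟨w, ⟨fun t _ => hw0 t, ?_⟩, ?_⟩
  · intro e
    convert hsum e
  · intro t ht
    have hle : w t ≤ 1 := by
      obtain ⟨a, ha⟩ : ∃ a, a ∈ t := by
        obtain ⟨-, -, -, a, b, c, -, -, -, -, -, -, h⟩ := ht
        exact ⟨a, by rw [h]; simp⟩
      rw [← hsum a]
      refine Finset.single_le_sum (f := w) (fun t _ => hw0 t) ?_
      rw [Finset.mem_filter]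
      exact ⟨Finset.mem_univ _, ht, ha⟩
    simp only [hw] at hle ⊢
    have h1 : (univ.filter (fun τ => tr τ = t)).card ≤ 2 := by
      rw [div_le_one (by norm_num)] at hle
      exact_mod_cast hle
    interval_cases (univ.filter (fun τ => tr τ = t)).card
    · left; norm_num
    · right; left; norm_num
    · right; right; norm_num

end Multigraph

open Multigraph

/-- Every planar multigraph (finite, without loops, with arbitrary multiplicities) which has a
rational `K₃`-decomposition has a rational `K₃`-decomposition in which the weight of every triangle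
is `0`, `1/2` or `1`. -/
theorem result {V E : Type*} [Fintype V] [Fintype E] [DecidableEq V] [DecidableEq E]
    (G : Multigraph V E) (hG : G.Planar) (w : Finset E → ℚ) (hw : G.IsDecomposition w) :
    ∃ w' : Finset E → ℚ, G.IsDecomposition w' ∧
      ∀ t, G.IsTriangle t → w' t = 0 ∨ w' t = 1 / 2 ∨ w' t = 1 := by
  classical
  have hagg0 : ∀ T, 0 ≤ G.agg w T := by
    intro T
    unfold agg
    refine Finset.sum_nonneg fun t ht => ?_
    exact hw.1 t ((isTriangle_iff t).2 ⟨T, (Finset.mem_filter.1 ht).2⟩)
  have haggTri : ∀ T, G.agg w T ≠ 0 → Tri G.graph univ T := by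
    intro T hT
    unfold agg at hT
    obtain ⟨t, ht, -⟩ := Finset.exists_ne_zero_of_sum_ne_zero hT
    obtain ⟨h3, -, himg⟩ := (Finset.mem_filter.1 ht).2
    refine ⟨Finset.subset_univ _, h3, ?_⟩
    intro a ha b hb hab
    have h1 : ({a, b} : Finset V) ∈ t.image G.ends := by
      rw [himg, Finset.mem_powersetCard]
      refine ⟨?_, Finset.card_pair hab⟩
      intro x hx
      simp only [Finset.mem_insert, Finset.mem_singleton] at hx
      rcases hx with rfl | rfl
      exacts [by exact_mod_cast ha, by exact_mod_cast hb]
    obtain ⟨e, -, he⟩ := Finset.mem_image.1 h1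
    exact ⟨hab, e, he⟩
  -- the linear system
  let A : (Finset V → ℚ) →ₗ[ℚ] ({P : Finset V // P.card = 2} → ℚ) :=
    { toFun := fun c P => inc c P.1
      map_add' := fun c d => by
        funext P
        exact inc_add c d P.1
      map_smul' := fun a c => by
        funext P
        exact inc_mul a c P.1 }
  obtain ⟨W, hW0, hWs, hWA, hWi⟩ := exists_basic A (G.agg w) hagg0
  have hWinc : ∀ P : Finset V, P.card = 2 →
      inc W P = ((univ.filter (fun e => G.ends e = P)).card : ℚ) := by
    intro P hP
    rw [← inc_agg hw hP]
    exact congrFun hWA ⟨P, hP⟩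
  have hWTri : ∀ T, W T ≠ 0 → Tri G.graph univ T := fun T hT =>
    haggTri T (fun h => hT (hWs T h))
  have hZ := key hG.1 hG.2 (univ : Finset V).card univ rfl (univ.filter (fun T => W T ≠ 0))
    (fun T hT => hWTri T (Finset.mem_filter.1 hT).2)
    (fun c hc hc0 => hWi c (fun T hT => hc T (by simp [hT])) (by
      funext P
      exact hc0 P.1 P.2))
    (fun T => 2 * W T) (fun _ => 0)
    (fun T hT => by
      have : W T = 0 := by simpa using hT
      simp [this])
    (fun _ _ => rfl) (fun _ => zero_mem _)
    (fun P hP => by
      have h0 : inc (fun _ : Finset V => (0 : ℚ)) P = 0 := by simp [inc]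
      rw [inc_mul, h0, sub_zero, hWinc P hP]
      exact mem_Es.2 ⟨((univ.filter (fun e => G.ends e = P)).card : ℤ), by push_cast; rfl⟩)
  have hnat : ∀ T, ∃ n : ℕ, (n : ℚ) = 2 * W T := by
    intro T
    obtain ⟨z, hz⟩ := mem_Zs.1 (hZ T)
    have h1 : (0 : ℚ) ≤ z := by
      rw [hz]
      have := hW0 T
      positivity
    have h2 : 0 ≤ z := by exact_mod_cast h1
    obtain ⟨n, rfl⟩ := Int.eq_ofNat_of_zero_le h2
    exact ⟨n, by rw [← hz]; simp⟩
  choose n hn using hnat
  apply distribute n
  · intro T hT
    have h1 : W T ≠ 0 := by
      intro h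
      apply hT
      have := hn T
      rw [h, mul_zero] at this
      exact_mod_cast this
    exact (hWTri T h1).2.1
  · intro P hP
    have h1 := hWinc P hP
    have h2 : ((∑ T ∈ univ.filter (fun T => P ⊆ T), n T : ℕ) : ℚ) = 2 * inc W P := by
      rw [Nat.cast_sum, inc, ← Finset.sum_filter, Finset.mul_sum]
      exact Finset.sum_congr rfl fun T _ => hn T
    rw [h1] at h2
    exact_mod_cast h2

end Pool.Agent.Results.MP_d6a58d_co.HalfIntegral
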